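import Mathlib

set_option autoImplicit false

namespace Pool.Agent.Results.MP_2432f5_co.NoMaximalExtension

/-- Image of the pattern `p` under the morphism that fixes every constant `Sum.inl a` and sends
the variable `Sum.inr v` to the word `h v`. -/
def image {σ : Type} (h : ℕ → List σ) (p : List (σ ⊕ ℕ)) : List σ :=
  p.flatMap (Sum.elim (fun a => [a]) h)

/-- The word `w` encounters the pattern `p`: some non-erasing morphism fixing the constants maps
`p` to a factor of `w`. -/
def Encounters {σ : Type} (p : List (σ ⊕ ℕ)) (w : List σ) : Prop :=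
  ∃ h : ℕ → List σ, (∀ v, h v ≠ []) ∧ image h p <:+: w

/-- exchange of the letters 0 and 1 -/
def fl (a : Fin 5) : Fin 5 := if a = 0 then 1 else if a = 1 then 0 else a

lemma fl_fl (a : Fin 5) : fl (fl a) = a := by revert a; decide

lemma fl_inj {a b : Fin 5} (h : fl a = fl b) : a = b := by
  rw [← fl_fl a, h, fl_fl]

/-- the period doubling word, with marker 2 at position 0 -/
def f (n : ℕ) : Fin 5 :=
  if n = 0 then 2 else if n % 2 = 1 then 0 else if n = 0 then 2 else fl (f (n / 2))
termination_by n
decreasing_by omega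

lemma f_zero : f 0 = 2 := by rw [f]; simp

lemma f_odd (m : ℕ) : f (2 * m + 1) = 0 := by
  rw [f]
  have h1 : (2 * m + 1) % 2 = 1 := by omega
  simp [h1]

lemma f_even (m : ℕ) : f (2 * m) = fl (f m) := by
  rcases Nat.eq_zero_or_pos m with h | h
  · subst h; rw [Nat.mul_zero, f_zero]; decide
  · rw [f]
    have h0 : 2 * m ≠ 0 := by omega
    have h1 : ¬ (2 * m) % 2 = 1 := by omega
    have h2 : 2 * m / 2 = m := by omega
    simp only [h0, h1, h2, if_false]

lemma f_mem (n : ℕ) : 0 < n → f n = 0 ∨ f n = 1 := by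
  induction n using Nat.strong_induction_on with
  | _ n ih =>
    intro hn
    rcases Nat.even_or_odd' n with ⟨m, h | h⟩
    · subst h
      rw [f_even]
      rcases ih m (by omega) (by omega) with h | h <;> rw [h] <;> decide
    · subst h
      left; exact f_odd m

lemma f_ne2 {n : ℕ} (hn : 0 < n) : f n ≠ 2 := by
  rcases f_mem n hn with h | h <;> rw [h] <;> decide

lemma f_ne3 (n : ℕ) : f n ≠ 3 := by
  rcases Nat.eq_zero_or_pos n with h | h
  · subst h; rw [f_zero]; decide
  · rcases f_mem n h with h | h <;> rw [h] <;> decide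

lemma f_ne4 (n : ℕ) : f n ≠ 4 := by
  rcases Nat.eq_zero_or_pos n with h | h
  · subst h; rw [f_zero]; decide
  · rcases f_mem n h with h | h <;> rw [h] <;> decide

lemma even_of_f_one {n : ℕ} (h : f n = 1) : ∃ m, n = 2 * m := by
  rcases Nat.even_or_odd' n with ⟨m, h' | h'⟩
  · exact ⟨m, h'⟩
  · subst h'; rw [f_odd] at h; exact absurd h (by decide)

lemma even_half {m : ℕ} (h : f (2 * m) = 0) : ∃ l, m = 2 * l := by
  apply even_of_f_one
  rw [f_even] at h
  rcases Nat.eq_zero_or_pos m with h0 | h0
  · subst h0; rw [f_zero] at h; exact absurd h (by decide)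
  · rcases f_mem m h0 with h1 | h1
    · rw [h1] at h; exact absurd h (by decide)
    · exact h1

/-- the period doubling word has no fourth powers -/
lemma no_pow (q : ℕ) : 1 ≤ q → ∀ i, 1 ≤ i →
    ¬ (∀ s, s < 3 * q → f (i + s) = f (i + s + q)) := by
  induction q using Nat.strong_induction_on with
  | _ q ih =>
    intro hq i hi H
    rcases Nat.even_or_odd' q with ⟨q', h | h⟩
    · subst h
      refine ih q' (by omega) (by omega) ((i + 1) / 2) (by omega) ?_
      intro s hs
      have h1 := H (2 * ((i + 1) / 2 + s) - i) (by omega)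
      have h2 : i + (2 * ((i + 1) / 2 + s) - i) = 2 * ((i + 1) / 2 + s) := by omega
      rw [h2, show 2 * ((i + 1) / 2 + s) + 2 * q' = 2 * ((i + 1) / 2 + s + q') by ring,
        f_even, f_even] at h1
      exact fl_inj h1
    · have key : ∀ s, s ≤ 1 → ∀ m, i + s = 2 * m → False := by
        intro s hs m hm
        have h1 := H s (by omega)
        have h2 := H (s + q) (by omega)
        rw [hm, show 2 * m + q = 2 * (m + q') + 1 by omega, f_odd] at h1
        rw [show i + (s + q) = 2 * (m + q') + 1 by omega,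
          show 2 * (m + q') + 1 + q = 2 * (m + q) by omega, f_odd] at h2
        obtain ⟨l, hl⟩ := even_half h1
        obtain ⟨l', hl'⟩ := even_half h2.symm
        omega
      rcases Nat.even_or_odd' i with ⟨m, h' | h'⟩
      · exact key 0 (by omega) m (by omega)
      · exact key 1 (by omega) (m + 1) (by omega)

/-- the six forbidden letter tuples -/
def gen : List (Fin 5 × Fin 5 × Fin 5 × Fin 5 × Fin 5) :=
  [(0, 1, 1, 1, 1), (1, 0, 0, 0, 0), (2, 1, 0, 1, 0), (2, 0, 1, 0, 1),
   (0, 1, 0, 0, 1), (1, 0, 1, 1, 0)]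

lemma gen_fl (a b c d e : Fin 5) (h : (a, b, c, d, e) ∈ gen) :
    (fl a, fl b, fl c, fl d, fl e) ∈ gen := by
  simp only [gen, List.mem_cons, Prod.mk.injEq, List.not_mem_nil, or_false] at h
  rcases h with ⟨rfl, rfl, rfl, rfl, rfl⟩ | ⟨rfl, rfl, rfl, rfl, rfl⟩ | ⟨rfl, rfl, rfl, rfl, rfl⟩ |
    ⟨rfl, rfl, rfl, rfl, rfl⟩ | ⟨rfl, rfl, rfl, rfl, rfl⟩ | ⟨rfl, rfl, rfl, rfl, rfl⟩ <;> decide

/-- forbidden tuples never occur in f with a repeated separator -/
lemma gen_free (q : ℕ) : 1 ≤ q → ∀ i,
    (∀ r, 0 < r → r < q → f (i + r) = f (i + q + r) ∧ f (i + q + r) = f (i + 2 * q + r)) →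
    (f i, f (i + q), f (i + 2 * q), f (i + 3 * q), f (i + 4 * q)) ∉ gen := by
  induction q using Nat.strong_induction_on with
  | _ q ih =>
    intro hq i H hg
    rcases Nat.even_or_odd' q with ⟨q', h | h⟩
    · subst h
      rcases Nat.even_or_odd' i with ⟨m, h' | h'⟩
      · subst h'
        refine ih q' (by omega) (by omega) m ?_ ?_
        · intro r hr hr'
          have h1 := H (2 * r) (by omega) (by omega)
          rw [show 2 * m + 2 * r = 2 * (m + r) by ring,
            show 2 * m + 2 * q' + 2 * r = 2 * (m + q' + r) by ring,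
            show 2 * m + 2 * (2 * q') + 2 * r = 2 * (m + 2 * q' + r) by ring,
            f_even, f_even, f_even] at h1
          exact ⟨fl_inj h1.1, fl_inj h1.2⟩
        · have h2 := gen_fl _ _ _ _ _ hg
          rw [show 2 * m + 2 * q' = 2 * (m + q') by ring,
            show 2 * m + 2 * (2 * q') = 2 * (m + 2 * q') by ring,
            show 2 * m + 3 * (2 * q') = 2 * (m + 3 * q') by ring,
            show 2 * m + 4 * (2 * q') = 2 * (m + 4 * q') by ring,
            f_even, f_even, f_even, f_even, f_even] at h2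
          simpa only [fl_fl] using h2
      · subst h'
        rw [show 2 * m + 1 + 2 * q' = 2 * (m + q') + 1 by ring,
            show 2 * m + 1 + 2 * (2 * q') = 2 * (m + 2 * q') + 1 by ring,
            show 2 * m + 1 + 3 * (2 * q') = 2 * (m + 3 * q') + 1 by ring,
            show 2 * m + 1 + 4 * (2 * q') = 2 * (m + 4 * q') + 1 by ring,
            f_odd, f_odd, f_odd, f_odd, f_odd] at hg
        exact absurd hg (by decide)
    · rcases Nat.eq_zero_or_pos q' with h0 | h0
      · -- q = 1
        subst h0
        have hq1 : q = 1 := by omega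
        subst hq1
        rcases Nat.even_or_odd' i with ⟨m, h' | h'⟩
        · subst h'
          rw [show 2 * m + 2 * 1 = 2 * (m + 1) by ring,
            show 2 * m + 3 * 1 = 2 * (m + 1) + 1 by ring,
            show 2 * m + 4 * 1 = 2 * (m + 2) by ring,
            f_odd, f_odd, f_even, f_even, f_even] at hg
          rcases Nat.even_or_odd' m with ⟨l, hl | hl⟩
          · subst hl
            rw [f_odd, show 2 * l + 2 = 2 * (l + 1) by ring, f_even, f_even] at hg
            rcases Nat.eq_zero_or_pos l with h3 | h3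
            · subst h3
              have : f 1 = 0 := f_odd 0
              rw [f_zero, this] at hg
              exact absurd hg (by decide)
            · rcases f_mem l h3 with h4 | h4 <;> rcases f_mem (l + 1) (by omega) with h5 | h5 <;>
                rw [h4, h5] at hg <;> exact absurd hg (by decide)
          · subst hl
            rw [f_odd, show 2 * l + 1 + 1 = 2 * (l + 1) by ring,
              show 2 * l + 1 + 2 = 2 * (l + 1) + 1 by ring, f_even, f_odd] at hg
            rcases f_mem (l + 1) (by omega) with h5 | h5 <;>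
                rw [h5] at hg <;> exact absurd hg (by decide)
        · subst h'
          rw [show 2 * m + 1 + 1 = 2 * (m + 1) by ring,
            show 2 * m + 1 + 2 * 1 = 2 * (m + 1) + 1 by ring,
            show 2 * m + 1 + 3 * 1 = 2 * (m + 2) by ring,
            show 2 * m + 1 + 4 * 1 = 2 * (m + 2) + 1 by ring,
            f_odd, f_odd, f_odd, f_even, f_even] at hg
          rcases f_mem (m + 1) (by omega) with h5 | h5 <;>
            rcases f_mem (m + 2) (by omega) with h6 | h6 <;>
            rw [h5, h6] at hg <;> exact absurd hg (by decide)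
      · have key : ∀ r, 0 < r → r < q → ∀ m, i + r = 2 * m → False := by
          intro r hr hr' m hm
          have h1 := H r hr hr'
          rw [hm, show i + q + r = 2 * (m + q') + 1 by omega,
            show i + 2 * q + r = 2 * (m + q) by omega, f_odd] at h1
          obtain ⟨l, hl⟩ := even_half h1.1
          obtain ⟨l', hl'⟩ := even_half h1.2.symm
          omega
        rcases Nat.even_or_odd' i with ⟨m, h' | h'⟩
        · exact key 2 (by omega) (by omega) (m + 1) (by omega)
        · exact key 1 (by omega) (by omega) (m + 1) (by omega)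

/-- immediate detection of a wrong bit at even positions -/
lemma det (n : ℕ) : 2 ∣ n → 4 ≤ n → ∃ q i, 1 ≤ q ∧ n = i + 4 * q ∧
    (∀ r, 0 < r → r < q → ∀ j, j < 4 → f (i + j * q + r) = f r) ∧
    (f i, f (i + q), f (i + 2 * q), f (i + 3 * q), fl (f n)) ∈ gen := by
  induction n using Nat.strong_induction_on with
  | _ n ih =>
    intro hn hn4
    obtain ⟨m, rfl⟩ := hn
    rcases Nat.even_or_odd' m with ⟨k, h | h⟩
    · subst h
      rcases Nat.lt_or_ge k 2 with hk | hk
      · have : k = 1 := by omega
        subst this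
        refine ⟨1, 0, le_refl _, by norm_num, ?_, ?_⟩
        · intro r hr hr'; omega
        · have h1 : f 1 = 0 := f_odd 0
          have h2 : f 2 = 1 := by
            rw [show (2 : ℕ) = 2 * 1 from rfl, f_even, h1]; decide
          have h3 : f 3 = 0 := f_odd 1
          have h4 : f 4 = 0 := by
            have e := f_even 2
            rw [h2] at e
            exact e.trans (by decide)
          simp only [Nat.zero_add, Nat.mul_one, Nat.reduceMul, f_zero, h1, h2, h3, h4]
          decide
      · obtain ⟨q, i, hq, hi, hr, hg⟩ := ih (2 * k) (by omega) ⟨k, rfl⟩ (by omega)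
        refine ⟨2 * q, 2 * i, by omega, by omega, ?_, ?_⟩
        · intro r hr0 hr1 j hj
          rcases Nat.even_or_odd' r with ⟨s, hs | hs⟩
          · subst hs
            rw [show 2 * i + j * (2 * q) + 2 * s = 2 * (i + j * q + s) by ring, f_even, f_even,
              hr s (by omega) (by omega) j hj]
          · subst hs
            rw [show 2 * i + j * (2 * q) + (2 * s + 1) = 2 * (i + j * q + s) + 1 by ring,
              f_odd, f_odd]
        · have h2 := gen_fl _ _ _ _ _ hg
          rw [show 2 * i + 2 * q = 2 * (i + q) by ring,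
            show 2 * i + 2 * (2 * q) = 2 * (i + 2 * q) by ring,
            show 2 * i + 3 * (2 * q) = 2 * (i + 3 * q) by ring,
            f_even i, f_even (i + q), f_even (i + 2 * q), f_even (i + 3 * q), f_even (2 * k)]
          exact h2
    · subst h
      have hk : 1 ≤ k := by omega
      obtain ⟨k', rfl⟩ : ∃ k', k = k' + 1 := ⟨k - 1, by omega⟩
      have e1 : f (2 * (2 * (k' + 1) + 1)) = 1 := by rw [f_even, f_odd]; decide
      have e2 : f (4 * k' + 2) = 1 := by
        rw [show 4 * k' + 2 = 2 * (2 * k' + 1) by ring, f_even, f_odd]; decide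
      have e3 : f (4 * k' + 4) = f (k' + 1) := by
        rw [show 4 * k' + 4 = 2 * (2 * (k' + 1)) by ring, f_even, f_even, fl_fl]
      have e4 : f (4 * k' + 3) = 0 := by
        rw [show 4 * k' + 3 = 2 * (2 * k' + 1) + 1 by ring, f_odd]
      have e5 : f (4 * k' + 5) = 0 := by
        rw [show 4 * k' + 5 = 2 * (2 * k' + 2) + 1 by ring, f_odd]
      rcases f_mem (k' + 1) (by omega) with hf | hf
      · refine ⟨1, 4 * k' + 2, le_refl _, by ring, ?_, ?_⟩
        · intro r hr hr'; omega
        · rw [e1, e2, show 4 * k' + 2 + 1 = 4 * k' + 3 by ring, e4,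
            show 4 * k' + 2 + 2 * 1 = 4 * k' + 4 by ring, e3, hf,
            show 4 * k' + 2 + 3 * 1 = 4 * k' + 5 by ring, e5]
          decide
      · obtain ⟨l, hl⟩ := even_of_f_one hf
        have hl1 : 1 ≤ l := by omega
        obtain ⟨l', rfl⟩ : ∃ l', l = l' + 1 := ⟨l - 1, by omega⟩
        have hk' : k' = 2 * l' + 1 := by omega
        subst hk'
        refine ⟨2, 8 * l' + 2, by norm_num, by ring, ?_, ?_⟩
        · intro r hr hr' j hj
          have : r = 1 := by omega
          subst this
          rw [show 8 * l' + 2 + j * 2 + 1 = 2 * (4 * l' + 1 + j) + 1 by ring, f_odd]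
          exact (f_odd 0).symm
        · rw [e1, show 8 * l' + 2 = 2 * (2 * (2 * l') + 1) by ring, f_even (2 * (2 * l') + 1), f_odd,
            show 2 * (2 * (2 * l') + 1) + 2 = 2 * (2 * (2 * l' + 1)) by ring,
            f_even (2 * (2 * l' + 1)), f_even, f_odd,
            show 2 * (2 * (2 * l') + 1) + 2 * 2 = 4 * (2 * l' + 1) + 2 by ring, e2,
            show 2 * (2 * (2 * l') + 1) + 3 * 2 = 4 * (2 * l' + 1) + 4 by ring, e3, hf]
          decide

/-- the first n letters of f -/
def Wd (n : ℕ) : List (Fin 5) := (List.range n).map f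

lemma Wd_succ (n : ℕ) : Wd (n + 1) = Wd n ++ [f n] := by
  simp [Wd, List.range_succ]

lemma Wd_length (n : ℕ) : (Wd n).length = n := by simp [Wd]

/-- the word A sits at position i of f -/
def At : ℕ → List (Fin 5) → Prop
  | _, [] => True
  | i, b :: A => f i = b ∧ At (i + 1) A

lemma At_append (A B : List (Fin 5)) : ∀ i, At i (A ++ B) ↔ At i A ∧ At (i + A.length) B := by
  induction A with
  | nil => intro i; simp [At]
  | cons a A ih =>
    intro i
    simp only [List.cons_append, At, ih, List.length_cons]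
    rw [show i + 1 + A.length = i + (A.length + 1) by ring, and_assoc]

lemma At_Wd (n : ℕ) : At 0 (Wd n) := by
  induction n with
  | zero => simp [Wd, At]
  | succ n ih =>
    rw [Wd_succ, At_append]
    refine ⟨ih, ?_⟩
    rw [Wd_length]
    simp [At]

lemma At_of_eq {X B Y : List (Fin 5)} {m : ℕ} (h : X ++ (B ++ Y) = Wd m) : At X.length B := by
  have h1 := At_Wd m
  rw [← h, At_append] at h1
  have h2 := h1.2
  rw [At_append] at h2
  simpa using h2.1

lemma Wd_append_At (A : List (Fin 5)) : ∀ i, At i A → Wd i ++ A = Wd (i + A.length) := by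
  induction A with
  | nil => intro i _; simp
  | cons a A ih =>
    intro i h
    obtain ⟨h1, h2⟩ := h
    have h3 := ih (i + 1) h2
    rw [Wd_succ, h1] at h3
    rw [List.length_cons, show i + (A.length + 1) = i + 1 + A.length by ring, ← h3]
    simp

lemma At_eq (C : List (Fin 5)) : ∀ i j, At i C → At j C → ∀ r, r < C.length →
    f (i + r) = f (j + r) := by
  induction C with
  | nil => intro i j _ _ r hr; simp at hr
  | cons a C ih =>
    intro i j hi hj r hr
    rcases r with _ | r
    · simp only [Nat.add_zero]; rw [hi.1, hj.1]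
    · have := ih (i + 1) (j + 1) hi.2 hj.2 r (by simpa using hr)
      rw [show i + (r + 1) = i + 1 + r by ring, show j + (r + 1) = j + 1 + r by ring]
      exact this

lemma At_map (g : ℕ → Fin 5) (l : ℕ) : ∀ i, (∀ r, r < l → f (i + r) = g r) →
    At i ((List.range l).map g) := by
  induction l with
  | zero => intro i _; simp [At]
  | succ l ih =>
    intro i h
    rw [List.range_succ, List.map_append, At_append]
    refine ⟨ih i (fun r hr => h r (by omega)), ?_⟩
    simp only [List.length_map, List.length_range, List.map_cons, List.map_nil, At, and_true]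
    exact h l (by omega)

/-- a tuple of five words -/
abbrev Tup := List (Fin 5) × List (Fin 5) × List (Fin 5) × List (Fin 5) × List (Fin 5)

/-- the word a0 C a1 C a2 C a3 C a4 -/
def bw (t : Tup) (C : List (Fin 5)) : List (Fin 5) :=
  t.1 ++ (C ++ (t.2.1 ++ (C ++ (t.2.2.1 ++ (C ++ (t.2.2.2.1 ++ (C ++ t.2.2.2.2)))))))

/-- contexts -/
def ctx : List (List (Fin 5) × List (Fin 5) × List (Fin 5) × List (Fin 5)) :=
  [([0], [0], [0], [0, 0, 0]), ([0], [0], [0, 0, 0], [0]), ([0], [0], [0, 0, 0], [0, 0, 0]),
   ([0], [0, 0, 0], [0], [0]), ([0], [0, 0, 0], [0, 0, 0], [0]),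
   ([0], [0, 0, 0], [0, 0, 0], [0, 0, 0]),
   ([0], [1], [0], [1]), ([0], [1], [0], [1, 0]), ([0], [1], [1], [1]), ([0], [1], [1], [1, 0]),
   ([1], [0], [1], [0]), ([1], [0], [1], [1]), ([1], [1], [0], [1]), ([1], [1], [0], [1, 0]),
   ([1], [1], [1], [0])]

/-- last words which never occur in f after position 0 -/
def nxt : List (List (Fin 5)) := [[1, 1], [1, 0, 0, 1], [1, 0, 0, 0, 0], [2], [3], [4]]

/-- all tuples used -/
def S : List Tup :=
  gen.map (fun g => ([g.1], [g.2.1], [g.2.2.1], [g.2.2.2.1], [g.2.2.2.2])) ++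
  ctx.flatMap (fun c => nxt.map (fun e => (c.1, c.2.1, c.2.2.1, c.2.2.2, e)))

lemma nxt_not_At (e : List (Fin 5)) (he : e ∈ nxt) (i : ℕ) (hi : 0 < i) : ¬ At i e := by
  intro h
  have no11 : ∀ k, f k = 1 → f (k + 1) = 1 → False := by
    intro k h1 h2
    obtain ⟨m, hm⟩ := even_of_f_one h1
    obtain ⟨m', hm'⟩ := even_of_f_one h2
    omega
  simp only [nxt, List.mem_cons, List.not_mem_nil, or_false] at he
  rcases he with rfl | rfl | rfl | rfl | rfl | rfl
  · simp only [At] at h
    exact no11 i h.1 h.2.1
  · simp only [At] at h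
    obtain ⟨m, hm⟩ := even_of_f_one h.1
    obtain ⟨m', hm'⟩ := even_of_f_one h.2.2.2.1
    omega
  · simp only [At] at h
    obtain ⟨m, hm⟩ := even_of_f_one h.1
    have h2 := h.2.2.1
    have h4 := h.2.2.2.2.1
    rw [show i + 1 + 1 = 2 * (m + 1) by omega] at h2
    rw [show i + 1 + 1 + 1 + 1 = 2 * (m + 2) by omega] at h4
    obtain ⟨l, hl⟩ := even_half h2
    obtain ⟨l', hl'⟩ := even_half h4
    omega
  · simp only [At] at h
    exact f_ne2 hi h.1
  · simp only [At] at h
    exact f_ne3 i h.1
  · simp only [At] at h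
    exact f_ne4 i h.1

/-- no tuple word occurs in f -/
lemma harmless (t : Tup) (ht : t ∈ S) (C : List (Fin 5)) (hC : C ≠ []) (X Y : List (Fin 5))
    (m : ℕ) : X ++ (bw t C ++ Y) ≠ Wd m := by
  intro h
  have hA := At_of_eq h
  unfold S at ht
  rw [List.mem_append] at ht
  rcases ht with ht | ht
  · rw [List.mem_map] at ht
    obtain ⟨⟨b0, b1, b2, b3, b4⟩, hg, rfl⟩ := ht
    set i := X.length
    simp only [bw, At_append, List.cons_append, List.nil_append, At, and_true] at hA
    obtain ⟨h0, c1, h1, c2, h2, c3, h3, c4, h4⟩ := hA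
    have hq : 1 ≤ C.length + 1 := by omega
    apply gen_free (C.length + 1) hq i
    · intro r hr hr'
      have e1 := At_eq C _ _ c1 c2 (r - 1) (by omega)
      have e2 := At_eq C _ _ c2 c3 (r - 1) (by omega)
      constructor
      · convert e1 using 2 <;> omega
      · convert e2 using 2 <;> omega
    · have e0 : f i = b0 := h0
      have e1 : f (i + (C.length + 1)) = b1 := by rw [← h1]; congr 1; omega
      have e2 : f (i + 2 * (C.length + 1)) = b2 := by rw [← h2]; congr 1; omega
      have e3 : f (i + 3 * (C.length + 1)) = b3 := by rw [← h3]; congr 1; omega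
      have e4 : f (i + 4 * (C.length + 1)) = b4 := by rw [← h4]; congr 1; omega
      rw [e0, e1, e2, e3, e4]
      exact hg
  · rw [List.mem_flatMap] at ht
    obtain ⟨c, hc, ht⟩ := ht
    rw [List.mem_map] at ht
    obtain ⟨e, he, rfl⟩ := ht
    simp only [bw, At_append] at hA
    obtain ⟨_, _, _, _, _, _, _, _, h4⟩ := hA
    refine nxt_not_At e he _ ?_ h4
    have := List.length_pos_iff.mpr hC
    omega

lemma f_shift (a : ℕ) : ∀ j s, 0 < s → s < 2 ^ a → f (2 ^ a * j + s) = f s := by
  induction a with
  | zero => intro j s h1 h2; simp at h2; omega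
  | succ a ih =>
    intro j s h1 h2
    rw [pow_succ] at h2
    rcases Nat.even_or_odd' s with ⟨t, h | h⟩
    · subst h
      rw [show 2 ^ (a + 1) * j + 2 * t = 2 * (2 ^ a * j + t) by ring, f_even, f_even,
        ih j t (by omega) (by omega)]
    · subst h
      rw [show 2 ^ (a + 1) * j + (2 * t + 1) = 2 * (2 ^ a * j + t) + 1 by ring, f_odd, f_odd]

/-- the first sixteen values -/
def ftab (s : ℕ) : Fin 5 := [2, 0, 1, 0, 0, 0, 1, 0, 1, 0, 1, 0, 0, 0, 1, 0].getD s 0

lemma f_tab (s : ℕ) (hs : s < 16) : f s = ftab s := by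
  have h0 : f 0 = 2 := f_zero
  have h1 : f 1 = 0 := f_odd 0
  have h2 : f 2 = 1 := (f_even 1).trans (by rw [h1]; decide)
  have h3 : f 3 = 0 := f_odd 1
  have h4 : f 4 = 0 := (f_even 2).trans (by rw [h2]; decide)
  have h5 : f 5 = 0 := f_odd 2
  have h6 : f 6 = 1 := (f_even 3).trans (by rw [h3]; decide)
  have h7 : f 7 = 0 := f_odd 3
  have h8 : f 8 = 1 := (f_even 4).trans (by rw [h4]; decide)
  have h9 : f 9 = 0 := f_odd 4
  have h10 : f 10 = 1 := (f_even 5).trans (by rw [h5]; decide)
  have h11 : f 11 = 0 := f_odd 5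
  have h12 : f 12 = 0 := (f_even 6).trans (by rw [h6]; decide)
  have h13 : f 13 = 0 := f_odd 6
  have h14 : f 14 = 1 := (f_even 7).trans (by rw [h7]; decide)
  have h15 : f 15 = 0 := f_odd 7
  interval_cases s <;> simp only [h0, h1, h2, h3, h4, h5, h6, h7, h8, h9, h10, h11, h12, h13, h14,
    h15] <;> decide

/-- values in a window of two blocks of length sixteen -/
def gv (b : Fin 5) (s : ℕ) : Fin 5 := if s < 16 then ftab s else if s = 16 then b else ftab (s - 16)

lemma f_gv (j s : ℕ) (h0 : 0 < s) (h1 : s < 32) : f (16 * j + s) = gv (f (j + 1)) s := by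
  unfold gv
  split_ifs with h2 h3
  · rw [← f_tab s h2]
    exact f_shift 4 j s h0 h2
  · subst h3
    rw [show 16 * j + 16 = 2 * (2 * (2 * (2 * (j + 1)))) by ring, f_even, f_even, f_even, f_even,
      fl_fl, fl_fl]
  · rw [← f_tab (s - 16) (by omega)]
    have := f_shift 4 (j + 1) (s - 16) (by omega) (by norm_num; omega)
    rw [← this]
    congr 1
    norm_num
    omega

/-- finite check -/
def okb (r : ℕ) (b d : Fin 5) : Bool :=
  S.any (fun t => [[0], [1]].any (fun C =>
    (bw t C).isSuffixOf ((List.range 15).map (fun k => gv b (1 + r + k)) ++ [d])))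

set_option maxRecDepth 100000 in
lemma okb_all : ∀ r ∈ List.range 16, ∀ b ∈ ([0, 1] : List (Fin 5)), ∀ d : Fin 5,
    (d = 2 ∨ d = 3 ∨ d = 4 ∨ (r % 4 ≠ 0 ∧ d ≠ ftab r)) → okb r b d = true := by
  decide +kernel

lemma detect (n : ℕ) (hn : 16 ≤ n) (d : Fin 5) (hd : d ≠ f n) :
    ∃ t ∈ S, ∃ C : List (Fin 5), C ≠ [] ∧ ∃ X, Wd n ++ [d] = X ++ bw t C := by
  by_cases hc : n % 4 = 0 ∧ (d = 0 ∨ d = 1)
  · obtain ⟨h4, hd01⟩ := hc
    have hdf : d = fl (f n) := by
      rcases f_mem n (by omega) with h | h <;> rw [h] at hd ⊢ <;> rcases hd01 with h' | h' <;>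
        subst h' <;> first | rfl | exact absurd rfl hd
    obtain ⟨m, rfl⟩ : ∃ m, n = 2 * m := ⟨n / 2, by omega⟩
    obtain ⟨q, i, hq, hi, hr, hg⟩ := det m (by omega) (by omega)
    have hg2 := gen_fl _ _ _ _ _ hg
    rw [← f_even, ← f_even, ← f_even, ← f_even, ← f_even] at hg2
    -- q' = 2 q, i' = 2 i
    set C : List (Fin 5) := (List.range (2 * q - 1)).map (fun r => f (r + 1)) with hC
    have hCl : C.length = 2 * q - 1 := by simp [hC]
    have hAt : ∀ j, j < 4 → At (2 * i + j * (2 * q) + 1) C := by
      intro j hj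
      apply At_map
      intro r hr0
      rcases Nat.even_or_odd' (r + 1) with ⟨s, hs | hs⟩
      · rw [hs, show 2 * i + j * (2 * q) + 1 + r = 2 * (i + j * q + s) by
            have : r = 2 * s - 1 := by omega
            subst this
            have : 0 < s := by omega
            have e : 2 * i + j * (2 * q) + 1 + (2 * s - 1) = 2 * i + j * (2 * q) + 2 * s := by omega
            rw [e]; ring, f_even, f_even, hr s (by omega) (by omega) j hj]
      · rw [hs, show 2 * i + j * (2 * q) + 1 + r = 2 * (i + j * q + s) + 1 by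
            have : r = 2 * s := by omega
            subst this
            ring, f_odd, f_odd]
    refine ⟨([f (2 * i)], [f (2 * (i + q))], [f (2 * (i + 2 * q))], [f (2 * (i + 3 * q))], [d]),
      ?_, C, ?_, Wd (2 * i), ?_⟩
    · unfold S
      rw [List.mem_append]
      left
      rw [List.mem_map]
      refine ⟨_, hg2, ?_⟩
      rw [hdf, ← f_even]
    · intro h
      rw [h] at hCl
      simp at hCl
      omega
    · have hAll : At (2 * i) ([f (2 * i)] ++ (C ++ ([f (2 * (i + q))] ++ (C ++
          ([f (2 * (i + 2 * q))] ++ (C ++ ([f (2 * (i + 3 * q))] ++ C))))))) := by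
        simp only [At_append, List.cons_append, List.nil_append, At]
        have a0 := hAt 0 (by norm_num)
        have a1 := hAt 1 (by norm_num)
        have a2 := hAt 2 (by norm_num)
        have a3 := hAt 3 (by norm_num)
        refine ⟨trivial, ?_, ?_, ?_, ?_, ?_, ?_, ?_⟩
        · convert a0 using 1; omega
        · congr 1; omega
        · convert a1 using 1; omega
        · congr 1; omega
        · convert a2 using 1; omega
        · congr 1; omega
        · convert a3 using 1; omega
      have h3 := Wd_append_At _ _ hAll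
      have hlen : 2 * i + ([f (2 * i)] ++ (C ++ ([f (2 * (i + q))] ++ (C ++
          ([f (2 * (i + 2 * q))] ++ (C ++ ([f (2 * (i + 3 * q))] ++ C))))))).length = 2 * m := by
        simp only [List.length_append, List.length_cons, List.length_nil, hCl]
        omega
      rw [hlen] at h3
      rw [← h3]
      simp [bw]
  · -- constant bans
    obtain ⟨j, r, hr, rfl⟩ : ∃ j r, r < 16 ∧ n = 16 * (j + 1) + r :=
      ⟨n / 16 - 1, n % 16, Nat.mod_lt _ (by norm_num), by omega⟩
    have hb : f (j + 1) ∈ ([0, 1] : List (Fin 5)) := by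
      rcases f_mem (j + 1) (by omega) with h | h <;> rw [h] <;> simp
    have hcond : d = 2 ∨ d = 3 ∨ d = 4 ∨ (r % 4 ≠ 0 ∧ d ≠ ftab r) := by
      by_cases h4 : r % 4 = 0
      · have : ¬ (d = 0 ∨ d = 1) := fun h => hc ⟨by omega, h⟩
        revert this
        revert d
        intro d _ _ h
        have : ∀ d : Fin 5, ¬ (d = 0 ∨ d = 1) → d = 2 ∨ d = 3 ∨ d = 4 := by decide
        rcases this d h with h | h | h
        · exact Or.inl h
        · exact Or.inr (Or.inl h)
        · exact Or.inr (Or.inr (Or.inl h))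
      · right; right; right
        refine ⟨h4, ?_⟩
        rw [← f_tab r hr]
        intro h
        apply hd
        rw [h]
        have := f_shift 4 (j + 1) r (by omega) (by norm_num; omega)
        rw [← this]
        norm_num
    have hok := okb_all r (List.mem_range.mpr hr) _ hb d hcond
    unfold okb at hok
    rw [List.any_eq_true] at hok
    obtain ⟨t, ht, hok⟩ := hok
    rw [List.any_eq_true] at hok
    obtain ⟨C, hC, hok⟩ := hok
    rw [List.isSuffixOf_iff_suffix] at hok
    obtain ⟨X, hX⟩ := hok
    refine ⟨t, ht, C, ?_, Wd (16 * j + (1 + r)) ++ X, ?_⟩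
    · intro h
      subst h
      simp at hC
    · have hw : At (16 * j + (1 + r))
          ((List.range 15).map (fun k => gv (f (j + 1)) (1 + r + k))) := by
        apply At_map
        intro k hk
        rw [show 16 * j + (1 + r) + k = 16 * j + (1 + r + k) by ring]
        exact f_gv j _ (by omega) (by omega)
      have h3 := Wd_append_At _ _ hw
      simp only [List.length_map, List.length_range] at h3
      rw [show 16 * (j + 1) + r = 16 * j + (1 + r) + 15 by ring, ← h3, List.append_assoc,
        List.append_assoc, ← hX]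

/-- the n-th power of a word -/
def rep (n : ℕ) (w : List (Fin 5)) : List (Fin 5) := (List.replicate n w).flatten

lemma rep_succ (n : ℕ) (w : List (Fin 5)) : rep (n + 1) w = w ++ rep n w := by
  simp [rep, List.replicate_succ]

lemma rep_length (n : ℕ) (w : List (Fin 5)) : (rep n w).length = n * w.length := by
  simp [rep]

lemma rep_count (n : ℕ) (w : List (Fin 5)) (c : Fin 5) :
    (rep n w).count c = n * w.count c := by
  induction n with
  | zero => simp [rep]
  | succ n ih => rw [rep_succ, List.count_append, ih]; ring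

lemma mem_rep {n : ℕ} {w : List (Fin 5)} {c : Fin 5} (h : c ∈ rep n w) : c ∈ w := by
  simp only [rep, List.mem_flatten, List.mem_replicate] at h
  obtain ⟨l, ⟨_, rfl⟩, h⟩ := h
  exact h

lemma mem_rep_of {n : ℕ} (hn : 0 < n) {w : List (Fin 5)} {c : Fin 5} (h : c ∈ w) :
    c ∈ rep n w := by
  simp only [rep, List.mem_flatten, List.mem_replicate]
  exact ⟨w, ⟨by omega, rfl⟩, h⟩

lemma rep_single (n : ℕ) (c : Fin 5) : rep n [c] = List.replicate n c := by
  simp [rep]

lemma rep_inj {n : ℕ} (hn : 0 < n) {v w : List (Fin 5)} (h : rep n v = rep n w) : v = w := by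
  have hl : v.length = w.length := by
    have := congrArg List.length h
    rw [rep_length, rep_length] at this
    exact Nat.eq_of_mul_eq_mul_left hn this
  obtain ⟨k, rfl⟩ : ∃ k, n = k + 1 := ⟨n - 1, by omega⟩
  rw [rep_succ, rep_succ] at h
  exact (List.append_inj h hl).1

lemma split1 {X F Y L R : List (Fin 5)} {c : Fin 5} (h : X ++ (F ++ Y) = L ++ c :: R)
    (hc : c ∉ F) : (∃ r, L = X ++ (F ++ r) ∧ Y = r ++ c :: R) ∨
      (∃ l, R = l ++ (F ++ Y) ∧ X = L ++ c :: l) := by
  rw [List.append_eq_append_iff] at h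
  rcases h with ⟨a, h1, h2⟩ | ⟨a, h1, h2⟩
  · rw [List.append_eq_append_iff] at h2
    rcases h2 with ⟨b, h3, h4⟩ | ⟨b, h3, h4⟩
    · left
      exact ⟨b, by rw [h1, h3], h4⟩
    · rcases b with _ | ⟨x, b⟩
      · left
        refine ⟨[], ?_, ?_⟩
        · rw [h1, h3]; simp
        · simpa using h4.symm
      · simp only [List.cons_append, List.cons.injEq] at h4
        exfalso
        apply hc
        rw [h3, h4.1]
        simp
  · rcases a with _ | ⟨x, a⟩
    · rcases F with _ | ⟨y, F⟩
      · left
        refine ⟨[], ?_, ?_⟩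
        · simpa using h1.symm
        · simpa using h2.symm
      · simp only [List.nil_append, List.cons_append, List.cons.injEq] at h2
        exfalso
        apply hc
        rw [h2.1]
        simp
    · simp only [List.cons_append, List.cons.injEq] at h2
      right
      exact ⟨a, h2.2, by rw [h1, h2.1]⟩

/-- decomposition of a word into blocks at the letter 3 -/
def blk : List (Fin 5) → List (List (Fin 5))
  | [] => [[]]
  | a :: w => if a = 3 then [] :: blk w else
      match blk w with
      | [] => [[a]]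
      | b :: bs => (a :: b) :: bs

lemma blk_ne (w : List (Fin 5)) : blk w ≠ [] := by
  cases w with
  | nil => simp [blk]
  | cons a w =>
    simp only [blk]
    split_ifs
    · simp
    · split <;> simp

lemma blk_append (A B : List (Fin 5)) : blk (A ++ 3 :: B) = blk A ++ blk B := by
  induction A with
  | nil => simp [blk]
  | cons a A ih =>
    simp only [List.cons_append, blk]
    split_ifs
    · rw [ih]; simp
    · rw [ih]
      rcases hA : blk A with _ | ⟨b, bs⟩
      · exact absurd hA (blk_ne A)
      · simp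

lemma blk_free (A : List (Fin 5)) (h : (3 : Fin 5) ∉ A) : blk A = [A] := by
  induction A with
  | nil => simp [blk]
  | cons a A ih =>
    simp only [List.mem_cons, not_or] at h
    simp only [blk]
    rw [if_neg (fun e => h.1 e.symm), ih h.2]

lemma blk_three : blk [3] = [[], []] := by simp [blk]

/-- exponent of the letters of a context -/
def N1 : ℕ := 10

/-- the frame of a tuple -/
def fr (t : Tup) : List (Fin 5) :=
  rep N1 t.1 ++ 3 :: (rep N1 t.2.1 ++ 3 :: (rep N1 t.2.2.1 ++ 3 :: (rep N1 t.2.2.2.1 ++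
    3 :: (t.2.2.2.2 ++ [3]))))

/-- all frames -/
def G : List (Fin 5) := 3 :: S.flatMap fr

/-- first part of the pattern -/
def Af : List ℕ :=
  0 :: (List.replicate N1 1 ++ 0 :: (List.replicate N1 2 ++ 0 :: (List.replicate N1 3 ++
    0 :: (List.replicate N1 4 ++ [0, 5, 0]))))

/-- a mirror image of the first part of the pattern over the letters 0 and 4 -/
def A0 : List (Fin 5) := (Af.map (fun v => if v = 0 then (4 : Fin 5) else 0)).reverse

/-- exponent of the delimiter -/
def N2 : ℕ := G.length + A0.length + 20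

lemma N2_eq : N2 = G.length + A0.length + 20 := rfl

attribute [irreducible] N2

/-- the right half with the first m letters of f -/
def Qm (m : ℕ) : List (Fin 5) :=
  List.replicate 9 0 ++ 2 :: (List.replicate N2 4 ++ 2 :: (A0 ++ 2 :: (G ++ 2 ::
    (List.replicate N2 3 ++ 2 :: Wd m))))

/-- the right half of the pattern -/
def P : List ℕ := Af ++ 7 :: (List.replicate N2 0 ++ 8 :: [1, 6, 2, 6, 3, 6, 4, 6, 5])

lemma flatMap_replicate (h : ℕ → List (Fin 5)) (n v : ℕ) :
    (List.replicate n v).flatMap h = rep n (h v) := by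
  induction n with
  | zero => simp [rep]
  | succ n ih => rw [List.replicate_succ, List.flatMap_cons, ih, rep_succ]

/-- image of the first part -/
def afw (h : ℕ → List (Fin 5)) : List (Fin 5) :=
  h 0 ++ (rep N1 (h 1) ++ (h 0 ++ (rep N1 (h 2) ++ (h 0 ++ (rep N1 (h 3) ++ (h 0 ++
    (rep N1 (h 4) ++ (h 0 ++ (h 5 ++ h 0)))))))))

lemma Af_image (h : ℕ → List (Fin 5)) : Af.flatMap h = afw h := by
  simp [Af, afw, List.flatMap_append, List.flatMap_cons, flatMap_replicate]

/-- image of the last part -/
def tup (h : ℕ → List (Fin 5)) : Tup := (h 1, h 2, h 3, h 4, h 5)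

lemma P_image (h : ℕ → List (Fin 5)) :
    P.flatMap h = afw h ++ (h 7 ++ (rep N2 (h 0) ++ (h 8 ++ bw (tup h) (h 6)))) := by
  rw [← Af_image]
  simp [P, tup, bw, List.flatMap_append, List.flatMap_cons, flatMap_replicate]

lemma S_prop : ∀ t ∈ S, (3 : Fin 5) ∉ t.1 ∧ (3 : Fin 5) ∉ t.2.1 ∧ (3 : Fin 5) ∉ t.2.2.1 ∧
    (3 : Fin 5) ∉ t.2.2.2.1 ∧ ((3 : Fin 5) ∉ t.2.2.2.2 ∨ t.2.2.2.2 = [3]) ∧
    t.2.2.2.2.length ≤ 5 := by
  decide +kernel

lemma S_ne : ∀ t ∈ S, t.1 ≠ [] ∧ t.2.1 ≠ [] ∧ t.2.2.1 ≠ [] ∧ t.2.2.2.1 ≠ [] ∧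
    t.2.2.2.2 ≠ [] := by
  decide +kernel

/-- blocks of a frame -/
def gb (t : Tup) : List (List (Fin 5)) :=
  rep N1 t.1 :: rep N1 t.2.1 :: rep N1 t.2.2.1 :: rep N1 t.2.2.2.1 :: blk t.2.2.2.2

lemma not_mem_rep {n : ℕ} {w : List (Fin 5)} {c : Fin 5} (h : c ∉ w) : c ∉ rep n w :=
  fun h' => h (mem_rep h')

lemma blk_fr (t : Tup) (ht : t ∈ S) (W : List (Fin 5)) : blk (fr t ++ W) = gb t ++ blk W := by
  obtain ⟨h1, h2, h3, h4, _, _⟩ := S_prop t ht
  have e : fr t ++ W = rep N1 t.1 ++ 3 :: (rep N1 t.2.1 ++ 3 :: (rep N1 t.2.2.1 ++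
      3 :: (rep N1 t.2.2.2.1 ++ 3 :: (t.2.2.2.2 ++ 3 :: W)))) := by
    simp [fr]
  rw [e, blk_append, blk_append, blk_append, blk_append, blk_append, blk_free _ (not_mem_rep h1),
    blk_free _ (not_mem_rep h2), blk_free _ (not_mem_rep h3), blk_free _ (not_mem_rep h4)]
  simp [gb]

lemma blk_frames (T : List Tup) (hT : ∀ t ∈ T, t ∈ S) :
    blk (T.flatMap fr ++ [2]) = T.flatMap gb ++ [[2]] := by
  induction T with
  | nil => simp [blk]
  | cons t T ih =>
    rw [List.flatMap_cons, List.append_assoc, blk_fr t (hT t (by simp)),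
      ih (fun t ht => hT t (by simp [ht])), List.flatMap_cons, List.append_assoc]

lemma blk_short (t : Tup) (ht : t ∈ S) : ∀ b ∈ blk t.2.2.2.2, b.length < N1 := by
  obtain ⟨_, _, _, _, h5, h6⟩ := S_prop t ht
  intro b hb
  rcases h5 with h5 | h5
  · rw [blk_free _ h5] at hb
    simp only [List.mem_singleton] at hb
    subst hb
    unfold N1
    omega
  · rw [h5, blk_three] at hb
    simp only [List.mem_cons, List.not_mem_nil, or_false, or_self] at hb
    subst hb
    simp [N1]

lemma match_blocks (T : List Tup) (hT : ∀ t ∈ T, t ∈ S) :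
    ∀ (XS : List (List (Fin 5))) (p0 p1 p2 p3 : List (Fin 5)) (rest : List (List (Fin 5))),
    XS ++ (p0 :: p1 :: p2 :: p3 :: rest) = T.flatMap gb ++ [[2]] →
    N1 ≤ p0.length → N1 ≤ p1.length → N1 ≤ p2.length → N1 ≤ p3.length →
    ∃ t ∈ T, p0 = rep N1 t.1 ∧ p1 = rep N1 t.2.1 ∧ p2 = rep N1 t.2.2.1 ∧
      p3 = rep N1 t.2.2.2.1 ∧ ∃ more, rest = blk t.2.2.2.2 ++ more := by
  induction T with
  | nil =>
    intro XS p0 p1 p2 p3 rest h _ _ _ _
    have := congrArg List.length h
    simp at this
    omega
  | cons t T ih =>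
    intro XS p0 p1 p2 p3 rest h l0 l1 l2 l3
    have hs := blk_short t (hT t (by simp))
    have ih' := ih (fun t ht => hT t (by simp [ht]))
    rw [List.flatMap_cons, List.append_assoc] at h
    simp only [gb, List.cons_append] at h
    obtain ⟨s0, s', hs0⟩ : ∃ s0 s', blk t.2.2.2.2 = s0 :: s' := by
      rcases hb : blk t.2.2.2.2 with _ | ⟨a, b⟩
      · exact absurd hb (blk_ne _)
      · exact ⟨a, b, rfl⟩
    have hs00 : s0.length < N1 := hs s0 (by rw [hs0]; simp)
    rcases XS with _ | ⟨x0, _ | ⟨x1, _ | ⟨x2, _ | ⟨x3, XS⟩⟩⟩⟩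
    · simp only [List.nil_append, List.cons.injEq] at h
      exact ⟨t, by simp, h.1, h.2.1, h.2.2.1, h.2.2.2.1, _, h.2.2.2.2⟩
    · exfalso
      rw [hs0] at h
      simp only [List.cons_append, List.nil_append, List.cons.injEq] at h
      have := h.2.2.2.2.1
      subst this
      omega
    · exfalso
      rw [hs0] at h
      simp only [List.cons_append, List.nil_append, List.cons.injEq] at h
      have := h.2.2.2.2.1
      subst this
      omega
    · exfalso
      rw [hs0] at h
      simp only [List.cons_append, List.nil_append, List.cons.injEq] at h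
      have := h.2.2.2.2.1
      subst this
      omega
    · simp only [List.cons_append, List.cons.injEq] at h
      have h5 := h.2.2.2.2
      rw [List.append_eq_append_iff] at h5
      rcases h5 with ⟨a, h6, h7⟩ | ⟨a, h6, h7⟩
      · rcases a with _ | ⟨y, a⟩
        · obtain ⟨t', ht', r⟩ := ih' [] p0 p1 p2 p3 rest (by simpa using h7) l0 l1 l2 l3
          exact ⟨t', by simp [ht'], r⟩
        · exfalso
          simp only [List.cons_append, List.cons.injEq] at h7
          have := hs p0 (by rw [h6, h7.1]; simp)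
          omega
      · obtain ⟨t', ht', r⟩ := ih' a p0 p1 p2 p3 rest h7.symm l0 l1 l2 l3
        exact ⟨t', by simp [ht'], r⟩

lemma not3_Wd (m : ℕ) : (3 : Fin 5) ∉ Wd m := by
  intro h
  simp only [Wd, List.mem_map] at h
  obtain ⟨k, _, hk⟩ := h
  exact f_ne3 k hk

lemma not4_Wd (m : ℕ) : (4 : Fin 5) ∉ Wd m := by
  intro h
  simp only [Wd, List.mem_map] at h
  obtain ⟨k, _, hk⟩ := h
  exact f_ne4 k hk

lemma count2_Wd (m : ℕ) : (Wd m).count 2 ≤ 1 := by
  induction m with
  | zero => simp [Wd]
  | succ m ih =>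
    rcases Nat.eq_zero_or_pos m with h | h
    · subst h; simp [Wd]
      exact List.count_le_length
    · rw [Wd_succ, List.count_append]
      have : [f m].count 2 = 0 := by
        rw [List.count_eq_zero]
        simp only [List.mem_singleton]
        exact fun e => f_ne2 h e.symm
      omega

lemma not3_A0 : (3 : Fin 5) ∉ A0 := by
  intro h
  simp only [A0, List.mem_reverse, List.mem_map] at h
  obtain ⟨k, _, hk⟩ := h
  split_ifs at hk <;> exact absurd hk (by decide)

lemma count2_A0 : A0.count 2 = 0 := by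
  rw [List.count_eq_zero]
  intro h
  simp only [A0, List.mem_reverse, List.mem_map] at h
  obtain ⟨k, _, hk⟩ := h
  split_ifs at hk <;> exact absurd hk (by decide)

lemma afw_length (h : ℕ → List (Fin 5)) (hne : ∀ v, h v ≠ []) : 40 < (afw h).length := by
  have hp : ∀ v, 1 ≤ (h v).length := fun v => List.length_pos_iff.mpr (hne v)
  have h0 := hp 0
  have h1 := hp 1
  have h2 := hp 2
  have h3 := hp 3
  have h4 := hp 4
  simp only [afw, List.length_append, rep_length, N1]
  omega

lemma count2_Qm (m : ℕ) : (Qm m).count 2 < N2 := by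
  have h1 := count2_Wd m
  have h2 : G.count 2 ≤ G.length := List.count_le_length
  have h3 := count2_A0
  have h4 : (List.replicate 9 (0 : Fin 5)).count 2 = 0 := by
    rw [List.count_eq_zero]; simp
  have h5 : (List.replicate N2 (4 : Fin 5)).count 2 = 0 := by
    rw [List.count_eq_zero]; simp
  have h6 : (List.replicate N2 (3 : Fin 5)).count 2 = 0 := by
    rw [List.count_eq_zero]; simp
  simp only [Qm, List.count_append, List.count_cons_self, h3, h4, h5, h6]
  have h7 := N2_eq
  omega

lemma At_getElem (B : List (Fin 5)) : ∀ i, At i B → ∀ r (hr : r < B.length),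
    f (i + r) = B[r] := by
  induction B with
  | nil => intro i _ r hr; simp at hr
  | cons a B ih =>
    intro i hi r hr
    rcases r with _ | r
    · simpa using hi.1
    · have := ih (i + 1) hi.2 r (by simpa using hr)
      rw [show i + (r + 1) = i + 1 + r by ring, this]
      simp

lemma rep_four_not (Z : List (Fin 5)) (hZ : Z ≠ []) (n : ℕ) (hn : 4 ≤ n) (i : ℕ) (hi : 1 ≤ i) :
    ¬ At i (rep n Z) := by
  intro h
  obtain ⟨k, rfl⟩ : ∃ k, n = k + 4 := ⟨n - 4, by omega⟩
  have e : rep (k + 4) Z = Z ++ (Z ++ (Z ++ (Z ++ rep k Z))) := by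
    rw [rep_succ, rep_succ, rep_succ, rep_succ]
  rw [e] at h
  simp only [At_append] at h
  obtain ⟨a1, a2, a3, a4, _⟩ := h
  have hq : 1 ≤ Z.length := List.length_pos_iff.mpr hZ
  apply no_pow Z.length hq i hi
  intro s hs
  rcases Nat.lt_or_ge s Z.length with h1 | h1
  · have := At_eq Z _ _ a1 a2 s h1
    rw [this]; congr 1; omega
  · rcases Nat.lt_or_ge s (2 * Z.length) with h2 | h2
    · have := At_eq Z _ _ a2 a3 (s - Z.length) (by omega)
      rw [show i + s = i + Z.length + (s - Z.length) by omega, this]; congr 1; omega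
    · have := At_eq Z _ _ a3 a4 (s - 2 * Z.length) (by omega)
      rw [show i + s = i + Z.length + Z.length + (s - 2 * Z.length) by omega, this]
      congr 1; omega

theorem P_free (h : ℕ → List (Fin 5)) (hne : ∀ v, h v ≠ []) (m : ℕ) :
    ¬ (P.flatMap h <:+: Qm m) := by
  rintro ⟨X, Y, hXY⟩
  rw [P_image] at hXY
  obtain ⟨Z, hZ⟩ : ∃ Z, Z = h 0 := ⟨_, rfl⟩
  obtain ⟨F, hF⟩ : ∃ F, F = rep N2 Z := ⟨_, rfl⟩
  obtain ⟨B, hB⟩ : ∃ B, B = bw (tup h) (h 6) := ⟨_, rfl⟩
  rw [← hZ, ← hF, ← hB] at hXY
  have hZ1 : 1 ≤ Z.length := by rw [hZ]; exact List.length_pos_iff.mpr (hne 0)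
  have hN2 := N2_eq
  have hFl : N2 ≤ F.length := by
    rw [hF, rep_length]; exact Nat.le_mul_of_pos_right _ hZ1
  have hX : (X ++ (afw h ++ h 7)) ++ (F ++ (h 8 ++ (B ++ Y))) = Qm m := by
    rw [← hXY]; simp only [List.append_assoc]
  have h2 : (2 : Fin 5) ∉ F := by
    intro hc
    have hc' : (2 : Fin 5) ∈ Z := by
      rw [hF] at hc
      exact mem_rep hc
    have h3 : 1 ≤ Z.count 2 := List.one_le_count_iff.mpr hc'
    have h4 : F.count 2 ≤ (Qm m).count 2 := by
      rw [← hX]
      simp only [List.count_append]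
      omega
    rw [hF, rep_count] at h4
    have h5 := count2_Qm m
    have h6 : N2 ≤ N2 * Z.count 2 := Nat.le_mul_of_pos_right _ h3
    omega
  have hafw := afw_length h hne
  unfold Qm at hX
  rcases split1 hX h2 with ⟨r, hr, _⟩ | ⟨l1, hl1, hX1⟩
  · have := congrArg List.length hr
    simp only [List.length_append, List.length_replicate] at this
    omega
  rcases split1 hl1.symm h2 with ⟨r, hr, _⟩ | ⟨l2, hl2, hX2⟩
  · have e1 := congrArg List.length hr
    have e2 := congrArg List.length hX1
    simp only [List.length_append, List.length_replicate, List.length_cons] at e1 e2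
    omega
  rcases split1 hl2.symm h2 with ⟨r, hr, _⟩ | ⟨l3, hl3, hX3⟩
  · have := congrArg List.length hr
    simp only [List.length_append] at this
    omega
  rcases split1 hl3.symm h2 with ⟨r, hr, _⟩ | ⟨l4, hl4, hX4⟩
  · have := congrArg List.length hr
    simp only [List.length_append] at this
    omega
  rcases split1 hl4.symm h2 with ⟨r, hr, hY⟩ | ⟨l5, hl5, hX5⟩
  · -- the run of 3
    have e1 := congrArg List.length hr
    simp only [List.length_append, List.length_replicate] at e1
    have hl40 : l4 = [] := List.eq_nil_of_length_eq_zero (by omega)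
    have hr0 : r = [] := List.eq_nil_of_length_eq_zero (by omega)
    subst hl40 hr0
    have hZl : Z.length = 1 := by
      have : F.length = N2 := by simp at e1; omega
      rw [hF, rep_length] at this
      have hpos : 0 < N2 := by omega
      have : N2 * Z.length = N2 * 1 := by omega
      exact Nat.eq_of_mul_eq_mul_left hpos this
    have hZ3 : Z = [3] := by
      rcases hZc : Z with _ | ⟨a, Z'⟩
      · rw [hZc] at hZl; simp at hZl
      · rw [hZc] at hZl
        have : Z' = [] := List.eq_nil_of_length_eq_zero (by simpa using hZl)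
        subst this
        have ha : a ∈ F := by
          rw [hF, hZc]
          exact mem_rep_of (by omega) (by simp)
        have : a ∈ List.replicate N2 (3 : Fin 5) := by
          rw [hr]; simp [ha]
        rw [List.eq_of_mem_replicate this]
    -- location of the last part
    rw [List.nil_append] at hY
    obtain ⟨v, hv⟩ : ∃ v, h 8 = 2 :: v := by
      rcases h8 : h 8 with _ | ⟨a, v⟩
      · exact absurd h8 (hne 8)
      · rw [h8] at hY
        simp only [List.cons_append, List.cons.injEq] at hY
        exact ⟨v, by rw [hY.1]⟩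
    rw [hv] at hY
    simp only [List.cons_append, List.cons.injEq, true_and] at hY
    have h3B : (3 : Fin 5) ∉ B := by
      intro h3
      apply not3_Wd m
      rw [← hY]
      simp [h3]
    have h3i : (3 : Fin 5) ∉ h 1 ∧ (3 : Fin 5) ∉ h 2 ∧ (3 : Fin 5) ∉ h 3 ∧ (3 : Fin 5) ∉ h 4 ∧
        (3 : Fin 5) ∉ h 5 := by
      refine ⟨fun hc => h3B ?_, fun hc => h3B ?_, fun hc => h3B ?_, fun hc => h3B ?_,
        fun hc => h3B ?_⟩ <;> simp [hB, bw, tup, hc]
    obtain ⟨i1, i2, i3, i4, i5⟩ := h3i
    rw [hB] at hY
    refine harmless (tup h) ?_ (h 6) (hne 6) v Y m hY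
    -- the blocks
    have hXX : X ++ 3 :: (rep N1 (h 1) ++ 3 :: (rep N1 (h 2) ++ 3 :: (rep N1 (h 3) ++ 3 ::
        (rep N1 (h 4) ++ 3 :: (h 5 ++ 3 :: h 7))))) =
        (List.replicate 9 0 ++ 2 :: (List.replicate N2 4 ++ 2 :: (A0 ++ [2]))) ++
          3 :: (S.flatMap fr ++ [2]) := by
      have e : X ++ (afw h ++ h 7) = X ++ 3 :: (rep N1 (h 1) ++ 3 :: (rep N1 (h 2) ++ 3 ::
          (rep N1 (h 3) ++ 3 :: (rep N1 (h 4) ++ 3 :: (h 5 ++ 3 :: h 7))))) := by
        simp only [afw, ← hZ, hZ3, List.cons_append, List.nil_append, List.append_assoc]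
      rw [← e, hX1, hX2, hX3, hX4]
      simp [G]
    have hb := congrArg blk hXX
    have h3E : (3 : Fin 5) ∉ (List.replicate 9 0 ++ 2 :: (List.replicate N2 4 ++
        2 :: (A0 ++ [2])) : List (Fin 5)) := by
      simp [not3_A0]
    rw [blk_append, blk_append, blk_append, blk_append, blk_append, blk_append, blk_append,
      blk_free _ (not_mem_rep i1), blk_free _ (not_mem_rep i2), blk_free _ (not_mem_rep i3),
      blk_free _ (not_mem_rep i4), blk_free _ i5, blk_free _ h3E,
      blk_frames S (fun t ht => ht)] at hb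
    rcases hx : blk X with _ | ⟨x0, xs⟩
    · exact absurd hx (blk_ne X)
    · rw [hx] at hb
      simp only [List.cons_append, List.nil_append, List.cons.injEq] at hb
      have hrep : ∀ v, N1 ≤ (rep N1 (h v)).length := by
        intro v
        rw [rep_length]
        exact Nat.le_mul_of_pos_right _ (List.length_pos_iff.mpr (hne v))
      obtain ⟨t, ht, e1, e2, e3, e4, more, e5⟩ := match_blocks S (fun t ht => ht) xs _ _ _ _ _
        hb.2 (hrep 1) (hrep 2) (hrep 3) (hrep 4)
      have hN1 : 0 < N1 := by unfold N1; omega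
      have f1 := rep_inj hN1 e1
      have f2 := rep_inj hN1 e2
      have f3 := rep_inj hN1 e3
      have f4 := rep_inj hN1 e4
      have f5 : h 5 = t.2.2.2.2 := by
        obtain ⟨_, _, _, _, h5, _⟩ := S_prop t ht
        rcases h5 with h5 | h5
        · rw [blk_free _ h5] at e5
          simp only [List.cons_append, List.cons.injEq] at e5
          exact e5.1
        · rw [h5, blk_three] at e5
          simp only [List.cons_append, List.cons.injEq] at e5
          exact absurd e5.1 (hne 5)
      have : tup h = t := by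
        unfold tup
        rw [f1, f2, f3, f4, f5]
      rw [this]
      exact ht
  · -- inside the infinite word
    have hA : At l5.length F := At_of_eq hl5.symm
    rcases Nat.eq_zero_or_pos l5.length with h0 | h0
    · rw [h0] at hA
      rcases hFc : F with _ | ⟨a, F'⟩
      · rw [hFc] at hFl; simp at hFl; omega
      · rw [hFc] at hA
        have := hA.1
        rw [f_zero] at this
        apply h2
        rw [hFc, this]
        simp
    · rw [hF] at hA
      exact rep_four_not Z (by rw [hZ]; exact hne 0) N2 (by omega) _ h0 hA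

/-- variables of the whole pattern -/
def pvar : List ℕ := (P.map (fun v => v + 9)).reverse ++ 18 :: P

lemma P_le : ∀ v ∈ P, v < 9 := by
  intro v hv
  simp only [P, Af, List.mem_append, List.mem_cons, List.mem_replicate, List.not_mem_nil,
    or_false] at hv
  omega

lemma Af_le : ∀ v ∈ Af, v ≤ 5 := by
  intro v hv
  simp only [Af, List.mem_append, List.mem_cons, List.mem_replicate, List.not_mem_nil,
    or_false] at hv
  omega

lemma flatMap_reverse' (h : ℕ → List (Fin 5)) (q : List ℕ) :
    (q.flatMap h).reverse = q.reverse.flatMap (fun v => (h v).reverse) := by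
  induction q with
  | nil => simp
  | cons a q ih =>
    rw [List.flatMap_cons, List.reverse_append, ih, List.reverse_cons, List.flatMap_append]
    simp

lemma flatMap_congr' (h g : ℕ → List (Fin 5)) (q : List ℕ) (H : ∀ v ∈ q, h v = g v) :
    q.flatMap h = q.flatMap g := by
  induction q with
  | nil => simp
  | cons a q ih =>
    rw [List.flatMap_cons, List.flatMap_cons, H a (by simp), ih (fun v hv => H v (by simp [hv]))]

lemma flatMap_map' (h : ℕ → List (Fin 5)) (g : ℕ → ℕ) (q : List ℕ) :
    (q.map g).flatMap h = q.flatMap (fun v => h (g v)) := by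
  induction q with
  | nil => simp
  | cons a q ih => rw [List.map_cons, List.flatMap_cons, ih, List.flatMap_cons]

/-- encountering for lists of variables -/
def Enc (q : List ℕ) (w : List (Fin 5)) : Prop :=
  ∃ h : ℕ → List (Fin 5), (∀ v, h v ≠ []) ∧ q.flatMap h <:+: w

lemma Enc_mono {q : List ℕ} {v w : List (Fin 5)} (hvw : v <:+: w) (h : Enc q v) : Enc q w := by
  obtain ⟨g, hg, hi⟩ := h
  exact ⟨g, hg, hi.trans hvw⟩

lemma pvar_image (h : ℕ → List (Fin 5)) : pvar.flatMap h =
    P.reverse.flatMap (fun v => h (v + 9)) ++ (h 18 ++ P.flatMap h) := by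
  unfold pvar
  rw [List.flatMap_append, List.flatMap_cons, ← List.map_reverse, flatMap_map']

lemma Enc_reverse {w : List (Fin 5)} (h : Enc pvar w) : Enc pvar w.reverse := by
  obtain ⟨g, hg, hi⟩ := h
  refine ⟨fun v => if v < 9 then (g (v + 9)).reverse else if v < 18 then (g (v - 9)).reverse
    else (g v).reverse, ?_, ?_⟩
  · intro v
    dsimp only
    split_ifs <;> simp [hg]
  · have e : pvar.flatMap (fun v => if v < 9 then (g (v + 9)).reverse else
        if v < 18 then (g (v - 9)).reverse else (g v).reverse) = (pvar.flatMap g).reverse := by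
      rw [pvar_image, pvar_image, List.reverse_append, List.reverse_append, flatMap_reverse',
        flatMap_reverse', List.reverse_reverse, List.append_assoc]
      congr 1
      · apply flatMap_congr'
        intro v hv
        have := P_le v (List.mem_reverse.mp hv)
        rw [if_neg (by omega), if_pos (by omega)]
        rfl
      · congr 1
        apply flatMap_congr'
        intro v hv
        have := P_le v hv
        rw [if_pos this]
    rw [e]
    exact List.reverse_infix.mpr hi

lemma free_two (m1 m2 : ℕ) : ¬ Enc pvar ((Qm m1).reverse ++ Qm m2) := by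
  rintro ⟨h, hne, X, Y, hXY⟩
  rw [pvar_image] at hXY
  have e : (X ++ P.reverse.flatMap (fun v => h (v + 9))) ++ (h 18 ++ (P.flatMap h ++ Y)) =
      (Qm m1).reverse ++ Qm m2 := by
    rw [← hXY]; simp only [List.append_assoc]
  rw [List.append_eq_append_iff] at e
  rcases e with ⟨a, h1, _⟩ | ⟨a, _, h2⟩
  · apply P_free (fun v => (h (v + 9)).reverse) (by intro v; simp [hne]) m1
    have h3 := congrArg List.reverse h1
    rw [List.reverse_reverse, List.reverse_append, List.reverse_append, flatMap_reverse',
      List.reverse_reverse] at h3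
    exact ⟨a.reverse, X.reverse, by rw [h3]; simp only [List.append_assoc]⟩
  · apply P_free h hne m2
    exact ⟨a ++ h 18, Y, by rw [h2]; simp only [List.append_assoc]⟩

lemma frame_mem (T : List Tup) : ∀ t ∈ T, ∃ G1 G2, 3 :: T.flatMap fr = G1 ++ (3 :: fr t ++ G2) := by
  induction T with
  | nil => intro t ht; simp at ht
  | cons s T ih =>
    intro t ht
    rw [List.mem_cons] at ht
    rcases ht with rfl | ht
    · exact ⟨[], T.flatMap fr, by simp⟩
    · obtain ⟨G1, G2, hG⟩ := ih t ht
      -- fr s ends with 3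
      obtain ⟨s', hs'⟩ : ∃ s', fr s = s' ++ [3] := by
        refine ⟨rep N1 s.1 ++ 3 :: (rep N1 s.2.1 ++ 3 :: (rep N1 s.2.2.1 ++
          3 :: (rep N1 s.2.2.2.1 ++ 3 :: s.2.2.2.2))), ?_⟩
        simp [fr]
      refine ⟨3 :: s' ++ G1, G2, ?_⟩
      rw [List.flatMap_cons, hs', List.append_assoc, List.append_assoc, ← hG]
      simp

/-- the morphism detecting a wrong letter -/
def mor (t : Tup) (C X G1 G2 : List (Fin 5)) (v : ℕ) : List (Fin 5) :=
  if v = 0 then [3] else if v = 1 then t.1 else if v = 2 then t.2.1 else if v = 3 then t.2.2.1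
  else if v = 4 then t.2.2.2.1 else if v = 5 then t.2.2.2.2 else if v = 6 then C
  else if v = 7 then G2 ++ [2] else if v = 8 then 2 :: X else if v = 9 then [4]
  else if v = 16 then [2] else if v = 17 then [2] else if v = 18 then 2 :: G1 else [0]

lemma mor_ne (t : Tup) (C X G1 G2 : List (Fin 5)) (n1 : t.1 ≠ []) (n2 : t.2.1 ≠ [])
    (n3 : t.2.2.1 ≠ []) (n4 : t.2.2.2.1 ≠ []) (n5 : t.2.2.2.2 ≠ []) (hC : C ≠ []) (v : ℕ) :
    mor t C X G1 G2 v ≠ [] := by
  unfold mor
  by_cases h0 : v = 0
  · rw [if_pos h0]; exact List.cons_ne_nil _ _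
  rw [if_neg h0]
  by_cases h1 : v = 1
  · rw [if_pos h1]; exact n1
  rw [if_neg h1]
  by_cases h2 : v = 2
  · rw [if_pos h2]; exact n2
  rw [if_neg h2]
  by_cases h3 : v = 3
  · rw [if_pos h3]; exact n3
  rw [if_neg h3]
  by_cases h4 : v = 4
  · rw [if_pos h4]; exact n4
  rw [if_neg h4]
  by_cases h5 : v = 5
  · rw [if_pos h5]; exact n5
  rw [if_neg h5]
  by_cases h6 : v = 6
  · rw [if_pos h6]; exact hC
  rw [if_neg h6]
  by_cases h7 : v = 7
  · rw [if_pos h7]; simp
  rw [if_neg h7]
  by_cases h8 : v = 8
  · rw [if_pos h8]; exact List.cons_ne_nil _ _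
  rw [if_neg h8]
  by_cases h9 : v = 9
  · rw [if_pos h9]; exact List.cons_ne_nil _ _
  rw [if_neg h9]
  by_cases h16 : v = 16
  · rw [if_pos h16]; exact List.cons_ne_nil _ _
  rw [if_neg h16]
  by_cases h17 : v = 17
  · rw [if_pos h17]; exact List.cons_ne_nil _ _
  rw [if_neg h17]
  by_cases h18 : v = 18
  · rw [if_pos h18]; exact List.cons_ne_nil _ _
  rw [if_neg h18]
  exact List.cons_ne_nil _ _

lemma force (n : ℕ) (hn : 16 ≤ n) (b : Fin 5) (hb : b ≠ f n) : Enc pvar (Qm n ++ [b]) := by
  obtain ⟨t, ht, C, hC, X, hX⟩ := detect n hn b hb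
  obtain ⟨G1, G2, hG⟩ := frame_mem S t ht
  obtain ⟨n1, n2, n3, n4, n5⟩ := S_ne t ht
  refine ⟨mor t C X G1 G2, ?_, ?_⟩
  · exact mor_ne t C X G1 G2 n1 n2 n3 n4 n5 hC
  · have e1 : P.flatMap (mor t C X G1 G2) = (3 :: fr t) ++ ((G2 ++ [2]) ++
        (List.replicate N2 3 ++ ((2 :: X) ++ bw t C))) := by
      rw [P_image]
      have a0 : mor t C X G1 G2 0 = [3] := rfl
      have a1 : mor t C X G1 G2 1 = t.1 := rfl
      have a2 : mor t C X G1 G2 2 = t.2.1 := rfl
      have a3 : mor t C X G1 G2 3 = t.2.2.1 := rfl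
      have a4 : mor t C X G1 G2 4 = t.2.2.2.1 := rfl
      have a5 : mor t C X G1 G2 5 = t.2.2.2.2 := rfl
      have a6 : mor t C X G1 G2 6 = C := rfl
      have a7 : mor t C X G1 G2 7 = G2 ++ [2] := rfl
      have a8 : mor t C X G1 G2 8 = 2 :: X := rfl
      have a9 : tup (mor t C X G1 G2) = t := by
        unfold tup
        rw [a1, a2, a3, a4, a5]
      have a10 : afw (mor t C X G1 G2) = 3 :: fr t := by
        unfold afw fr
        rw [a0, a1, a2, a3, a4, a5]
        simp
      rw [a10, a7, a0, a8, a9, a6, rep_single]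
    have e2 : P.reverse.flatMap (fun v => mor t C X G1 G2 (v + 9)) =
        List.replicate 9 0 ++ 2 :: (List.replicate N2 4 ++ 2 :: A0) := by
      have b1 : (Af.reverse).flatMap (fun v => mor t C X G1 G2 (v + 9)) = A0 := by
        unfold A0
        have : ∀ q : List ℕ, (∀ v ∈ q, v ≤ 5) →
            q.flatMap (fun v => mor t C X G1 G2 (v + 9)) =
              q.map (fun v => if v = 0 then (4 : Fin 5) else 0) := by
          intro q
          induction q with
          | nil => intro _; simp
          | cons a q ih =>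
            intro hq
            have ha := hq a (by simp)
            rw [List.flatMap_cons, ih (fun v hv => hq v (by simp [hv])), List.map_cons]
            interval_cases a <;> rfl
        rw [this _ (fun v hv => Af_le v (List.mem_reverse.mp hv)), List.map_reverse]
      have b2 : P.reverse = [5, 6, 4, 6, 3, 6, 2, 6, 1] ++ 8 :: (List.replicate N2 0 ++
          7 :: Af.reverse) := by
        simp [P]
      have b7 : ∀ g : ℕ → List (Fin 5), (8 :: (List.replicate N2 0 ++ 7 :: Af.reverse)).flatMap g =
          g 8 ++ (rep N2 (g 0) ++ (g 7 ++ Af.reverse.flatMap g)) := by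
        intro g
        rw [List.flatMap_cons, List.flatMap_append, List.flatMap_cons, flatMap_replicate g]
      have b3 : mor t C X G1 G2 (0 + 9) = [4] := rfl
      have b4 : mor t C X G1 G2 (8 + 9) = [2] := rfl
      have b5 : mor t C X G1 G2 (7 + 9) = [2] := rfl
      have b6 : ([5, 6, 4, 6, 3, 6, 2, 6, 1] : List ℕ).flatMap
          (fun v => mor t C X G1 G2 (v + 9)) = List.replicate 9 0 := rfl
      rw [b2, List.flatMap_append, b6, b7, b1, b3, b4, b5, rep_single]
      simp
    have e3 : mor t C X G1 G2 18 = 2 :: G1 := rfl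
    have e4 : pvar.flatMap (mor t C X G1 G2) = Qm n ++ [b] := by
      rw [pvar_image, e1, e2, e3]
      unfold Qm G
      rw [hG]
      simp only [List.append_assoc, List.cons_append, List.nil_append, ← hX]
    rw [e4]

lemma Qm_succ (n : ℕ) : Qm (n + 1) = Qm n ++ [f n] := by
  unfold Qm
  rw [Wd_succ]
  simp only [List.append_assoc, List.cons_append]

lemma forced (t : List (Fin 5)) : ¬ Enc pvar (Qm 16 ++ t) → Qm 16 ++ t = Qm (16 + t.length) := by
  induction t using List.reverseRecOn with
  | nil => intro _; simp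
  | append_singleton t b ih =>
    intro h
    have h1 : ¬ Enc pvar (Qm 16 ++ t) := by
      intro h2
      apply h
      refine Enc_mono ?_ h2
      rw [← List.append_assoc]
      exact (List.prefix_append _ _).isInfix
    have h2 := ih h1
    rw [← List.append_assoc, h2] at h ⊢
    by_cases hb : b = f (16 + t.length)
    · rw [hb, ← Qm_succ]
      simp only [List.length_append, List.length_cons, List.length_nil]
      rfl
    · exact absurd (force _ (by omega) b hb) h

lemma main_var : ¬ Enc pvar ((Qm 16).reverse ++ Qm 16) ∧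
    ∀ u : List (Fin 5), ¬ Enc pvar u → ((Qm 16).reverse ++ Qm 16) <:+: u →
      ∃ a b : Fin 5, ¬ Enc pvar (a :: (u ++ [b])) := by
  refine ⟨free_two 16 16, ?_⟩
  rintro u hu ⟨s, t, rfl⟩
  have h1 : Qm 16 ++ t = Qm (16 + t.length) := by
    apply forced
    intro h
    apply hu
    refine Enc_mono ?_ h
    exact ⟨s ++ (Qm 16).reverse, [], by simp only [List.append_assoc, List.append_nil]⟩
  have h2 : Qm 16 ++ s.reverse = Qm (16 + s.length) := by
    rw [← List.length_reverse (as := s)]
    apply forced
    intro h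
    apply hu
    have h' := Enc_reverse h
    rw [List.reverse_append, List.reverse_reverse] at h'
    refine Enc_mono ?_ h'
    exact ⟨[], Qm 16 ++ t, by simp only [List.append_assoc, List.nil_append]⟩
  have h3 : s ++ (Qm 16).reverse = (Qm (16 + s.length)).reverse := by
    rw [← h2]; simp
  refine ⟨f (16 + s.length), f (16 + t.length), ?_⟩
  have e : f (16 + s.length) :: ((s ++ ((Qm 16).reverse ++ Qm 16) ++ t) ++ [f (16 + t.length)]) =
      (Qm (16 + s.length + 1)).reverse ++ Qm (16 + t.length + 1) := by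
    rw [Qm_succ (16 + s.length), Qm_succ (16 + t.length), ← h1, ← h2]
    simp only [List.reverse_append, List.reverse_reverse, List.append_assoc, List.cons_append,
      List.nil_append, List.reverse_cons, List.reverse_nil]
  rw [e]
  exact free_two _ _

lemma image_inr (h : ℕ → List (Fin 5)) (q : List ℕ) :
    image h (q.map Sum.inr) = q.flatMap h := by
  induction q with
  | nil => simp [image]
  | cons a q ih =>
    have : image h ((a :: q).map Sum.inr) = h a ++ image h (q.map Sum.inr) := by
      simp [image]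
    rw [this, ih, List.flatMap_cons]

lemma encounters_iff (q : List ℕ) (w : List (Fin 5)) :
    Encounters (q.map Sum.inr) w ↔ Enc q w := by
  unfold Encounters Enc
  simp only [image_inr]

/-- There are a pattern `p` without constants and a `p`-free word `w` over a five-letter alphabet
such that every `p`-free word `u` having `w` as a factor extends to a `p`-free word `a u b`; so no
maximal `p`-free word has `w` as a factor. -/
theorem result :
    ∃ (p : List (Fin 5 ⊕ ℕ)) (w : List (Fin 5)),
      p ≠ [] ∧ (∀ x ∈ p, ∃ v : ℕ, x = Sum.inr v) ∧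
      ¬ Encounters p w ∧
      ∀ u : List (Fin 5), ¬ Encounters p u → w <:+: u →
        ∃ a b : Fin 5, ¬ Encounters p ([a] ++ u ++ [b]) := by
  refine ⟨pvar.map Sum.inr, (Qm 16).reverse ++ Qm 16, ?_, ?_, ?_, ?_⟩
  · unfold pvar
    simp
  · intro x hx
    rw [List.mem_map] at hx
    obtain ⟨v, _, rfl⟩ := hx
    exact ⟨v, rfl⟩
  · rw [encounters_iff]
    exact main_var.1
  · intro u hu hw
    rw [encounters_iff] at hu
    obtain ⟨a, b, hab⟩ := main_var.2 u hu hw
    refine ⟨a, b, ?_⟩
    rw [encounters_iff]
    simpa using hab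

end Pool.Agent.Results.MP_2432f5_co.NoMaximalExtension
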